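import Pool.Agent.W533.PP.Stm

/-! Appending a value to an inversion sequence. -/

set_option autoImplicit false

namespace Pool.Agent.W585.PP

open Pool.Agent.W533.PP Finset

theorem iins : IINS := by
  intro n e x
  constructor
  · rintro ⟨h1, h2⟩
    refine ⟨⟨fun i => ?_, fun i j k hij hjk => ?_⟩, ?_, fun i j hij => ?_⟩
    · have := h1 i.castSucc
      rwa [app_castSucc, Fin.val_castSucc] at this
    · have := h2 i.castSucc j.castSucc k.castSucc (Fin.castSucc_lt_castSucc_iff.2 hij)
        (Fin.castSucc_lt_castSucc_iff.2 hjk)
      rwa [app_castSucc, app_castSucc, app_castSucc] at this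
    · have := h1 (Fin.last n)
      rwa [app_last, Fin.val_last] at this
    · have := h2 i.castSucc j.castSucc (Fin.last n) (Fin.castSucc_lt_castSucc_iff.2 hij)
        (Fin.castSucc_lt_last j)
      rwa [app_castSucc, app_castSucc, app_last] at this
  · rintro ⟨⟨h1, h2⟩, h3, h4⟩
    refine ⟨fun i => ?_, fun i j k hij hjk => ?_⟩
    · induction i using Fin.lastCases with
      | last => rw [app_last, Fin.val_last]; exact h3
      | cast i => rw [app_castSucc, Fin.val_castSucc]; exact h1 i
    · induction j using Fin.lastCases with
      | last => exact absurd hjk (not_lt.2 (Fin.le_last k))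
      | cast j =>
        induction i using Fin.lastCases with
        | last => exact absurd hij (not_lt.2 (Fin.le_last _))
        | cast i =>
          rw [Fin.castSucc_lt_castSucc_iff] at hij
          induction k using Fin.lastCases with
          | last =>
            rw [app_castSucc, app_castSucc, app_last]
            exact h4 i j hij
          | cast k =>
            rw [Fin.castSucc_lt_castSucc_iff] at hjk
            rw [app_castSucc, app_castSucc, app_castSucc]
            exact h2 i j k hij hjk

theorem le_Mx_iff {n : ℕ} (e : Fin (n + 1) → ℕ) (y : ℕ) : y ≤ Mx e ↔ ∃ i, y ≤ e i := by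
  constructor
  · intro h
    obtain ⟨i, _, hi⟩ := Finset.exists_mem_eq_sup (Finset.univ : Finset (Fin (n + 1)))
      ⟨Fin.last n, Finset.mem_univ _⟩ e
    exact ⟨i, by rw [← hi]; exact h⟩
  · rintro ⟨i, hi⟩
    exact hi.trans (Finset.le_sup (f := e) (Finset.mem_univ i))

theorem iact : IACT := by
  intro n e x y
  constructor
  · rintro ⟨h1, h2⟩
    refine ⟨h1, fun i j hij => ?_, ?_⟩
    · have := h2 i.castSucc j.castSucc (Fin.castSucc_lt_castSucc_iff.2 hij)
      rwa [app_castSucc, app_castSucc] at this
    · rintro ⟨h3, h4⟩
      obtain ⟨i, hi⟩ := (le_Mx_iff e y).1 h4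
      have := h2 i.castSucc (Fin.last (n + 1)) (Fin.castSucc_lt_last i)
      rw [app_castSucc, app_last] at this
      exact this ⟨h3, hi⟩
  · rintro ⟨h1, h2, h3⟩
    refine ⟨h1, fun i j hij => ?_⟩
    induction i using Fin.lastCases with
    | last => exact absurd hij (not_lt.2 (Fin.le_last j))
    | cast i =>
      induction j using Fin.lastCases with
      | last =>
        rw [app_castSucc, app_last]
        rintro ⟨h4, h5⟩
        exact h3 ⟨h4, (le_Mx_iff e y).2 ⟨i, h5⟩⟩
      | cast j =>
        rw [Fin.castSucc_lt_castSucc_iff] at hij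
        rw [app_castSucc, app_castSucc]
        exact h2 i j hij

end Pool.Agent.W585.PP
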